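import Pool.Agent.Work.MP_bf01b2_co.Bd.LB
import Pool.Agent.Work.MP_bf01b2_co.Bd.BI
import Pool.Agent.Work.MP_bf01b2_co.Bd.BL
import Pool.Agent.Work.MP_bf01b2_co.Bd.QS
import Pool.Agent.Work.MP_bf01b2_co.Bd.UN
import Pool.Agent.Work.MP_bf01b2_co.Bd.CZ
import Pool.Agent.Work.MP_bf01b2_co.Bd.DE
import Pool.Agent.Work.MP_bf01b2_co.Bd.NE
import Pool.Agent.Work.MP_bf01b2_co.Bd.PE
import Pool.Agent.Work.MP_bf01b2_co.Bd.PP
import Pool.Agent.Work.MP_bf01b2_co.Bd.PS
import Pool.Agent.Work.MP_bf01b2_co.Bd.MZ
import Pool.Agent.Work.MP_bf01b2_co.Bd.IZ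
import Pool.Agent.Work.MP_bf01b2_co.Bd.MK
import Pool.Agent.Work.MP_bf01b2_co.Bd.LD
import Pool.Agent.Work.MP_bf01b2_co.Bd.LL
import Pool.Agent.Work.MP_bf01b2_co.Bd.HO
import Pool.Agent.Work.MP_bf01b2_co.Bd.HN
import Pool.Agent.Work.MP_bf01b2_co.Bd.HA
import Pool.Agent.Work.MP_bf01b2_co.Bd.RU
import Pool.Agent.Work.MP_bf01b2_co.Bd.IT
import Pool.Agent.Work.MP_bf01b2_co.Bd.ED
import Pool.Agent.Work.MP_bf01b2_co.Bd.LI
import Pool.Agent.Work.MP_bf01b2_co.Bd.FI
import Pool.Agent.Work.MP_bf01b2_co.Bd.NU
import Pool.Agent.Work.MP_bf01b2_co.Bd.CO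
import Pool.Agent.Work.MP_bf01b2_co.Bd.AS
import Pool.Agent.Work.MP_bf01b2_co.Tree

/-!
# Binary trees are subgraphs of the hypercube of dimension `n + O(1)`

Every tree of maximum degree at most `3` with at most `2 ^ n` vertices is a subgraph of `Q_{n+C}`,
with an absolute constant `C`.  (The conjecture of Bhatt et al. asks for `n + 1`.)

Idea of the proof.  The tree is a prefix closed set of bit strings, its levels are cut into slabs
of height `5 s` with `s = O(log n)`.  A slab flips coordinates of a window of `7 s` coordinates; the
`B = n / (7 s) - O(1)` windows are used cyclically.  Static block maps (five levels, seven labels,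
three or four flips, injective at the end of the block) make vertices with a close common ancestor
different; a random permutation of the window and a random number of flips make the content of a
window uniform.  A moment computation gives fibres of size `O(2 ^ (n - 7 s B))`.  One level in five
is free: on these levels `O(log n)` further coordinates are decided one after the other, each of
them halves all fibres up to a factor `1 + 4 / r` (symmetric local lemma).  When the fibres are
bounded, a greedy choice of boundedly many further coordinates makes the map injective.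
-/

set_option autoImplicit false

namespace Pool.Agent.Results.MP_bf01b2_co.BoundedExcess

open Pool.Agent.Work.MP_bf01b2_co Pool.Agent.Work.MP_bf01b2_co.Bd

/-- Every tree of maximum degree at most `3` on at most `2 ^ n` vertices is isomorphic to a
subgraph of the hypercube of dimension `n + C`, where `C` is an absolute constant. -/
theorem result :
    ∃ C : ℕ, ∀ n : ℕ,
      ∀ (V : Type) [Fintype V] [DecidableEq V] (G : SimpleGraph V) [DecidableRel G.Adj],
        G.IsTree → (∀ v : V, G.degree v ≤ 3) → Fintype.card V ≤ 2 ^ n →
          ∃ f : G →g SimpleGraph.fromRel (fun x y : Fin (n + C) → Bool => hammingDist x y = 1),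
            Function.Injective f :=
  have hqs := qSet lbInj lbBasic
  have hsu := supp lbBasic
  have hne := near (blkInj lbInj lbBasic) hqs decomp lbBasic
  assemble
    (core (params zLow)
      (loadThm
        (sumSmall peel (momZ (probS (uni lbInj lbBasic) cardOpt decomp hne prodCount))
          (indZ localP) hsu) hne)
      (nearP hne) (iter half rulThm)
      (locP (blkLoc lbInj lbBasic) hqs decomp edgeP edgeB lbBasic) finish edgeP edgeB)
    treeStr edgeP edgeB hsu

end Pool.Agent.Results.MP_bf01b2_co.BoundedExcess
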