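import Pool.Agent.Work.MP_bf01b2_co.Fw.AllE

/-!
# The next-to-optimal hypercube for binary trees whose derived tree has few leaves

There is `ε > 0` such that for all `n` every tree of maximum degree at most `3` with at most `2 ^ n`
vertices, in which at most `ε 2 ^ n` vertices of degree at least `2` have at most one neighbour of
degree at least `2`, is a subgraph of `Q_{n+1}`.  These vertices are the leaves of the derived tree
(the tree without its leaves), so this is the conjecture for all caterpillar-like trees: up to half
of the vertices may be leaves.

Idea of the proof.  Remove from every vertex of the derived tree which has leaf neighbours one leaf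
(from its parent's side: one childless child).  The rest has few leaves.  If at least `ε' 2 ^ n`
vertices were removed, the rest has at most `(1 - ε' / 2) 2 ^ n` vertices and is a subgraph of `Q_n` by
`FewLeaves`; the removed vertices are placed above their neighbours in the other half of `Q_{n+1}`.
Otherwise the whole tree has few leaves and `FewLeaves` applies with `n + 1` and `δ = 1 / 2`.
-/

set_option autoImplicit false

namespace Pool.Agent.Results.MP_bf01b2_co.DerivedTree

/-- There is `ε > 0` such that for all `n` every tree of maximum degree at most `3` with at most `2 ^ n`
vertices whose derived tree has at most `ε 2 ^ n` leaves is a subgraph of `Q_{n+1}`. -/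
theorem result :
    ∃ ε : ℝ, 0 < ε ∧ ∀ n : ℕ,
      ∀ (V : Type) [Fintype V] [DecidableEq V] (G : SimpleGraph V) [DecidableRel G.Adj],
        G.IsTree → (∀ v : V, G.degree v ≤ 3) → Fintype.card V ≤ 2 ^ n →
        ((Finset.univ.filter fun v => 2 ≤ G.degree v ∧
          ((G.neighborFinset v).filter fun u => 2 ≤ G.degree u).card ≤ 1).card : ℝ) ≤ ε * 2 ^ n →
          ∃ f : G →g SimpleGraph.fromRel (fun x y : Fin (n + 1) → Bool => hammingDist x y = 1),
            Function.Injective f :=
  Pool.Agent.Work.MP_bf01b2_co.Fw.cfn

end Pool.Agent.Results.MP_bf01b2_co.DerivedTree
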