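import Pool.Agent.Work.MP_bf01b2_co.Sh.All

/-!
# The next-to-optimal hypercube for binary trees with few heavy vertices, and of height `n + C`

Let `G` be a tree of maximum degree at most `3` with at most `2 ^ n` vertices, rooted at a vertex `r`
of degree at most `2`; `u` is a descendant of `v` if `v` lies on the path from `r` to `u`, that is,
`dist r u = dist r v + dist v u`.

(1) There is an absolute `ε > 0` such that for every `S` and all sufficiently large `n`: if at most
`ε 2 ^ n` vertices have at least `S` descendants then `G` is a subgraph of `Q_{n+1}`.

(2) For every `C` and all sufficiently large `n`: if the height of `G` is at most `n + C` then `G` is a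
subgraph of `Q_{n+1}`.

Idea of the proof of (1).  The vertices with at least `S` descendants are embedded in
`Q_R × Q_M`, `R + M = n + 1`, `M` an absolute constant, such that in the neighbourhood of every point
of `Q_R` every type of vertex (the type records the shape of the light subtree hanging at it, one of
finitely many) has at most its average frequency.  For this the lossless scheme of `FewLeaves` is
repeated with typed counts, down to an absolute scale by an asymmetric local lemma.  The
coordinates of `Q_R` have syndromes in `Z_2^k` (as in a Hamming code).  By Hall's theorem every light
piece gets its own base point in prescribed syndrome classes next to its heavy vertex; from there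
on it is a deterministic tile: in its first `2 M` levels the two children of a vertex get
complementary target bits of the label, exactly one of them changes the label, the other one
toggles a fixed coordinate, so that the labels of the rest of the piece are equidistributed and
independent of the start.  The tiles are disjoint because they occupy different syndrome classes,
and each of the two bipartition classes fills at most about two thirds of its half of `Q_{n+1}`.
-/

set_option autoImplicit false

namespace Pool.Agent.Results.MP_bf01b2_co.FewHeavyVertices

/-- (1) There is `ε > 0` such that for every `S` there is `n0` such that for all `n ≥ n0`, every tree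
of maximum degree at most `3` with at most `2 ^ n` vertices which, rooted at a vertex `r` of degree at
most `2`, has at most `ε 2 ^ n` vertices with at least `S` descendants, is a subgraph of `Q_{n+1}`.
(2) For every `C` there is `n0` such that for all `n ≥ n0`, every tree of maximum degree at most `3`
with at most `2 ^ n` vertices which, rooted at a vertex of degree at most `2`, has height at most
`n + C`, is a subgraph of `Q_{n+1}`. -/
theorem result :
    (∃ ε : ℝ, 0 < ε ∧ ∀ S : ℕ, ∃ n0 : ℕ, ∀ n : ℕ, n0 ≤ n →
      ∀ (V : Type) [Fintype V] [DecidableEq V] (G : SimpleGraph V) [DecidableRel G.Adj],
        G.IsTree → (∀ v : V, G.degree v ≤ 3) → Fintype.card V ≤ 2 ^ n →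
        ∀ r : V, G.degree r ≤ 2 →
        ((Finset.univ.filter fun v : V => S ≤ (Finset.univ.filter fun u : V =>
          G.dist r u = G.dist r v + G.dist v u).card).card : ℝ) ≤ ε * 2 ^ n →
          ∃ f : G →g SimpleGraph.fromRel (fun x y : Fin (n + 1) → Bool => hammingDist x y = 1),
            Function.Injective f) ∧
    (∀ C : ℕ, ∃ n0 : ℕ, ∀ n : ℕ, n0 ≤ n →
      ∀ (V : Type) [Fintype V] [DecidableEq V] (G : SimpleGraph V) [DecidableRel G.Adj],
        G.IsTree → (∀ v : V, G.degree v ≤ 3) → Fintype.card V ≤ 2 ^ n →
        ∀ r : V, G.degree r ≤ 2 → (∀ v : V, G.dist r v ≤ n + C) →
          ∃ f : G →g SimpleGraph.fromRel (fun x y : Fin (n + 1) → Bool => hammingDist x y = 1),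
            Function.Injective f) :=
  ⟨Pool.Agent.Work.MP_bf01b2_co.Sh.shl, Pool.Agent.Work.MP_bf01b2_co.Sh.hei⟩

end Pool.Agent.Results.MP_bf01b2_co.FewHeavyVertices
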