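import Pool.Agent.Work.MP_bf01b2_co.Fw.All

/-!
# Binary trees with few leaves are subgraphs of the hypercube of their size

For every `δ > 0` there is `ε > 0` such that for all `n` every tree of maximum degree at most `3` with at
most `(1 - δ) 2 ^ n` vertices and at most `ε 2 ^ n` leaves is a subgraph of `Q_n`.  With `δ = 1 / 2` and
`n + 1` in place of `n`: the conjecture (`Q_{n+1}` for at most `2 ^ n` vertices) holds for all
binary trees with at most `ε 2 ^ n` leaves.

Idea of the proof.  The tree is a prefix closed set of bit strings, cut into blocks of `H` levels, `H`
a large constant.  A block whose part of the tree is a path with `H` vertices is contracted to one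
vertex; as there are few leaves, the contracted tree has at most `(1 - τ) 2 ^ (n - β)` vertices, where
`H` is almost `2 ^ β`.  A lossless version of the proof of `BoundedExcess` maps the contracted tree to
`Q_{n - β - r0} × Q_m`, each edge flips one coordinate, the map is injective, and the fibres over
the first factor have at most `(1 + 4 / r0) 2 ^ r0` elements.  In the column over a point of the first
factor, a cube of constant dimension, every contracted vertex gets its own path with `H / 2`
vertices which starts at its position: an entry path, a highway with its own label and its own
interval of cells.  One more coordinate doubles the path and brings it back to its first vertex,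
from where the tree goes on in the other half.
-/

set_option autoImplicit false

namespace Pool.Agent.Results.MP_bf01b2_co.FewLeaves

/-- For every `δ > 0` there is `ε > 0` such that for all `n` every tree of maximum degree at most `3`
with at most `(1 - δ) 2 ^ n` vertices and at most `ε 2 ^ n` leaves is a subgraph of `Q_n`. -/
theorem result :
    ∀ δ : ℝ, 0 < δ → ∃ ε : ℝ, 0 < ε ∧ ∀ n : ℕ,
      ∀ (V : Type) [Fintype V] [DecidableEq V] (G : SimpleGraph V) [DecidableRel G.Adj],
        G.IsTree → (∀ v : V, G.degree v ≤ 3) → (Fintype.card V : ℝ) ≤ (1 - δ) * 2 ^ n →
        ((Finset.univ.filter fun v => G.degree v = 1).card : ℝ) ≤ ε * 2 ^ n →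
          ∃ f : G →g SimpleGraph.fromRel (fun x y : Fin n → Bool => hammingDist x y = 1),
            Function.Injective f :=
  Pool.Agent.Work.MP_bf01b2_co.Fw.all.1

end Pool.Agent.Results.MP_bf01b2_co.FewLeaves
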